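import Pool.Agent.Lib.MP_79f2f8_an.Q2

/-!
# MP_79f2f8_an, Q2: a finite-horizon dispersing table with bounded Lyapunov exponents
-/

namespace Pool.Agent.Results.MP_79f2f8_an.BoundedExponents

open Pool.Agent.Lib.MP_79f2f8_an

/-- There is a finite-horizon dispersing billiard table on the torus `ℝ²/ℤ²` (with finitely many
pairwise disjoint round disks as scatterers) and a constant `C` such that `λ(x) ≤ C` for
every non-grazing periodic point `x` of its billiard map; such points exist. -/
theorem result : ∃ B : DiskTable, B.FiniteHorizon ∧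
    (∃ x ∈ B.M, x ∈ Function.periodicPts B.T ∧ B.NonGrazing x) ∧ ∃ C : ℝ,
    ∀ x ∈ B.M, x ∈ Function.periodicPts B.T → B.NonGrazing x → B.lyapunov x ≤ C :=
  q2

end Pool.Agent.Results.MP_79f2f8_an.BoundedExponents
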