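import Pool.Agent.Lib.MP_79f2f8_an.Q1

/-!
# MP_79f2f8_an, Q1: a finite-horizon dispersing table without a pressure jump at 0
-/

namespace Pool.Agent.Results.MP_79f2f8_an.NoPressureJump

open Pool.Agent.Lib.MP_79f2f8_an Filter Topology

/-- There is a finite-horizon dispersing billiard table on the torus `ℝ²/ℤ²` (with finitely many
pairwise disjoint round disks as scatterers) whose geometric pressure is left continuous
at `0`: `P(q φ) → P(0)` as `q → 0-`, the suprema being over a nonempty set of measures. -/
theorem result : ∃ B : DiskTable, B.FiniteHorizon ∧ B.MStar.Nonempty ∧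
    Tendsto (fun q : ℝ => B.pressure (fun x => q * B.geoPot x)) (𝓝[<] 0)
      (𝓝 (B.pressure (fun _ => 0))) :=
  q1

end Pool.Agent.Results.MP_79f2f8_an.NoPressureJump
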